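import Mathlib

/-!
# Project SEN (helper72): the strengthening `M_{-2} ≤ 1` of Sendov's conjecture for all large degrees

Let `n = N + 1`, `p(z) = (z - a) ∏ (z - z_j)`, `0 ≤ a ≤ 1`, `|z_j| ≤ 1`, `p'(z) = n ∏_{k<N} (z - w_k)`.
THEOREM: there is `N₀` with `∑ |w_k - a|^{-2} ≥ N` for all `N ≥ N₀` (row MP_f0bc87_an, Q1 for all large
degrees; it contains Sendov's conjecture for large degrees).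

Suppose that `∑ |w_k - a|^{-2} < N`. Put `γ_k = 1 / (a - w_k)`, `g = (1/N) ∑ γ_k`,
`V = (1/N) ∑ |γ_k|^2 - |g|^2`, `A = ∏ |a - w_k|`, `g = a / 2 + β + i ω`. Then `|g|^2 + V < 1`, `A ≥ 1`, and
`β ≥ 0` (since `|w_k| ≤ 1`). We have `p(a - u) = - n c ∫_0^u ∏ (1 - t γ_k) dt`, `|c| = A`. There are two
upper bounds: `|p(0)| ≤ a` and `|p(z)| ≤ 2 ∏ |1 - conj(w_k) z| ≤ 2 A E(z)^{N/2}` for `|z| ≤ 1` (maximum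
principle, AM-GM), and one lower bound (Laplace's method with error terms proportional to `V`). They
contradict each other: at `z = i ω` if `ω` is large, at `z = a / 2` if `β ≤ a / 8`, at `z = 0` if `β > a / 8`.
-/

set_option autoImplicit false

namespace Pool.Agent.Q72.SEN

open Complex Polynomial

/-- the mean value -/
noncomputable def mean {N : ℕ} (γ : Fin N → ℂ) : ℂ := (∑ k, γ k) / N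

/-- the mean value of the squares of the absolute values -/
noncomputable def msq {N : ℕ} (γ : Fin N → ℂ) : ℝ := (∑ k, ‖γ k‖ ^ 2) / N

/-- the variance -/
noncomputable def vr {N : ℕ} (γ : Fin N → ℂ) : ℝ := msq γ - ‖mean γ‖ ^ 2

/-- `∫_0^u ∏ (1 - t γ_k) dt` -/
noncomputable def Itg {N : ℕ} (γ : Fin N → ℂ) (u : ℂ) : ℂ :=
  u * ∫ s in (0 : ℝ)..1, ∏ k, (1 - (s : ℂ) * u * γ k)

/-- the quantity `E(z)` -/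
noncomputable def Eb (a : ℝ) (g z : ℂ) : ℝ :=
  1 - 2 * (((a : ℂ) - z) * g).re + ‖(a : ℂ) - z‖ ^ 2 + (1 - ‖z‖ ^ 2) * (2 * a * g.re - a ^ 2)

/-- what we use of the polynomial `p` -/
structure Setup (N : ℕ) (a : ℝ) (w : Fin N → ℂ) (p : ℂ → ℂ) : Prop where
  a0 : 0 ≤ a
  a1 : a ≤ 1
  N1 : 1 ≤ N
  hd : ∀ z, HasDerivAt p (((N : ℂ) + 1) * ∏ k, (z - w k)) z
  pa : p a = 0
  p0 : ‖p 0‖ ≤ a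
  w1 : ∀ k, ‖w k‖ ≤ 1
  wa : ∀ k, w k ≠ a
  sharp : ∀ z : ℂ, ‖z‖ ≤ 1 → ‖p z‖ ≤ 2 * ∏ k, ‖1 - (starRingEnd ℂ) (w k) * z‖
  mn : ∀ v : ℂ, ‖p v‖ ^ 2 ≤ (1 + ‖v‖ ^ 2 - 2 * ((starRingEnd ℂ) v * mean w).re) ^ (N + 1)

/-- the data of a counterexample in terms of `γ_k = 1 / (a - w_k)` -/
structure Red (N : ℕ) (a : ℝ) (γ : Fin N → ℂ) (A : ℝ) (p : ℂ → ℂ) : Prop where
  a0 : 0 < a
  a1 : a ≤ 1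
  N1 : 1 ≤ N
  A1 : 1 ≤ A
  ms : msq γ < 1
  re : a / 2 ≤ (mean γ).re
  val : ∀ u : ℂ, ‖p ((a : ℂ) - u)‖ = ((N : ℝ) + 1) * A * ‖Itg γ u‖
  p0 : ‖p 0‖ ≤ a
  up : ∀ z : ℂ, ‖z‖ ≤ 1 → ‖p z‖ ≤ 2 * A * Real.sqrt (Eb a (mean γ) z) ^ N
  gne : ∀ k, γ k ≠ 0
  g2 : ∀ k, ‖(γ k)⁻¹‖ ≤ 2
  w1 : ∀ k, ‖(a : ℂ) - (γ k)⁻¹‖ ≤ 1
  mn : ∀ v : ℂ, ‖p v‖ ^ 2 ≤
    (1 + ‖v‖ ^ 2 - 2 * ((starRingEnd ℂ) v * mean fun k => (a : ℂ) - (γ k)⁻¹).re) ^ (N + 1)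

/-! ## Polynomials -/

/-- JOB SEN-ROOTS. Proof. `P = (X - a) ∏ (X - z_j)` is monic of degree `m + 1`, so `derivative P` has degree `m` and
leading coefficient `m + 1`, and it splits over `ℂ` (`IsAlgClosed.splits`): its multiset of roots has `m`
elements; enumerate it by `w : Fin m → ℂ` (for instance by `Multiset.toList`). The roots are in the convex hull of the
roots of `P` (Gauss-Lucas, `Polynomial.rootSet_derivative_subset_convexHull_rootSet` or similar in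
Mathlib/Analysis/Complex/Polynomial/GaussLucas.lean), which is contained in the closed unit ball
(convex). -/
def S_roots : Prop := ∀ (m : ℕ), 1 ≤ m → ∀ (a : ℝ), 0 ≤ a → a ≤ 1 → ∀ z : Fin m → ℂ,
  (∀ j, ‖z j‖ ≤ 1) →
  ∃ w : Fin m → ℂ,
    (derivative ((X - C (a : ℂ)) * ∏ j, (X - C (z j)))).roots = Finset.univ.val.map w ∧
    derivative ((X - C (a : ℂ)) * ∏ j, (X - C (z j))) = C ((m : ℂ) + 1) * ∏ k, (X - C (w k)) ∧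
    ∀ k, ‖w k‖ ≤ 1

/-- JOB SEN-SHARP. Proof. Let `R > 1`. For `‖x‖ = R` we have `‖p' x‖ ≥ (n / (2 R)) ‖p x‖`: as
`‖ζ_i‖ ≤ 1 ≤ ‖x‖`, `Re (x / (x - ζ_i)) ≥ 1 / 2` (`Re (x conj(x - ζ)) ≥ ‖x - ζ‖^2 / 2` since
`‖x - ζ‖^2 = ‖x‖^2 - 2 Re (x conj ζ) + ‖ζ‖^2 ≤ 2 (‖x‖^2 - Re (x conj ζ))`), and `x p'(x) / p(x) = ∑ x / (x - ζ_i)` has real
part at least `n / 2`. So `‖p x‖ ≤ 2 R ∏ ‖x - w_k‖ = 2 R ∏ ‖R - conj(w_k) x / R‖` for `‖x‖ = R` (as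
`‖x‖ = R`: `x conj x = R^2`). The function `∏ (R - conj(w_k) z / R)` has no zero for `‖z‖ ≤ R` (there
`‖conj(w_k) z / R‖ ≤ 1 < R`), so by the maximum principle
(`Complex.norm_le_of_forall_mem_frontier_norm_le` on the ball of radius `R`) `‖p z‖ ≤ 2 R ∏ ‖R - conj(w_k) z / R‖` for all
`‖z‖ ≤ R`. Let `R → 1`. -/
def S_sharp : Prop := ∀ (n N : ℕ) (ζ : Fin n → ℂ) (w : Fin N → ℂ), 1 ≤ n → (∀ i, ‖ζ i‖ ≤ 1) →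
  (∀ k, ‖w k‖ ≤ 1) →
  (∀ x : ℂ, HasDerivAt (fun x : ℂ => ∏ i, (x - ζ i)) ((n : ℂ) * ∏ k, (x - w k)) x) →
  ∀ z : ℂ, ‖z‖ ≤ 1 → ‖∏ i, (z - ζ i)‖ ≤ 2 * ∏ k, ‖1 - (starRingEnd ℂ) (w k) * z‖

/-- JOB SEN-AMGM. Proof. The inequality of the arithmetic and geometric means for the numbers `‖b_k‖^2`
(`Real.inner_le_...`; `Real.geom_mean_le_arith_mean_weighted` with weights `1 / N`, or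
`Real.inner_...`; there is also `Finset.prod_le_...`/`inner`). -/
def S_amgm : Prop := ∀ (N : ℕ) (b : Fin N → ℂ), 1 ≤ N →
  ∏ k, ‖b k‖ ≤ Real.sqrt ((∑ k, ‖b k‖ ^ 2) / N) ^ N

/-- JOB SEN-MN. Proof. By S_amgm `∏ ‖v - ζ_i‖^2 ≤ ((1/n) ∑ ‖v - ζ_i‖^2)^n`, and
`‖v - ζ_i‖^2 ≤ ‖v‖^2 - 2 Re (conj v ζ_i) + 1`. -/
def S_mn : Prop := ∀ (n : ℕ) (ζ : Fin n → ℂ) (v : ℂ), 1 ≤ n → (∀ i, ‖ζ i‖ ≤ 1) →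
  ‖∏ i, (v - ζ i)‖ ^ 2 ≤ (1 + ‖v‖ ^ 2 - 2 * ((starRingEnd ℂ) v * mean ζ).re) ^ n

/-- JOB SEN-MEANS. Proof. Compare the coefficients of `X^(m-1)` in `derivative P`, where
`P = (X - a) ∏ (X - z_j) = X^(m+1) - (a + ∑ z_j) X^m + …`: `m (a + ∑ z_j) = (m + 1) ∑ w_k`. (`nextCoeff` of products of
monic polynomials, `Polynomial.Monic.nextCoeff_mul`, `Polynomial.prod_X_sub_C_nextCoeff`.) -/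
def S_means : Prop := ∀ (m : ℕ) (a : ℂ) (z w : Fin m → ℂ), 1 ≤ m →
  derivative ((X - C a) * ∏ j, (X - C (z j))) = C ((m : ℂ) + 1) * ∏ k, (X - C (w k)) →
  mean w = mean (Fin.cons a z : Fin (m + 1) → ℂ)

/-! ## Reduction -/

/-- JOB SEN-RED. Proof (uses S_amgm). `A = ∏ ‖a - w_k‖`, `γ_k = (a - w_k)⁻¹`, `‖γ_k‖^2 = (‖w_k - a‖^2)⁻¹`.
(i) From `‖w_k‖ ≤ 1`, `w_k = a - 1/γ_k`: `0 ≤ (1 - ‖w_k‖^2) ‖γ_k‖^2 = ‖γ_k‖^2 - ‖a γ_k - 1‖^2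
= (1 - a^2) ‖γ_k‖^2 + 2 a Re γ_k - 1`; the mean value gives `0 ≤ (1 - a^2) msq γ + 2 a Re g - 1`. If `a = 0` this is
`msq γ ≥ 1`, a contradiction; so `a > 0`. As `msq γ < 1`, `2 a Re g ≥ a^2`.
(ii) `A ≥ 1`: S_amgm for `b = γ`: `A⁻¹ = ∏ ‖γ_k‖ ≤ 1`.
(iii) `val`: `z - w_k = (a - w_k) (1 - (a - z) γ_k)`; `p(a - u) = p(a - u) - p(a) = - u ∫_0^1 p'(a - s u) ds` (fundamental
theorem of calculus for `s ↦ p(a - s u)`), `p'(a - s u) = (N + 1) ∏ (a - w_k) ∏ (1 - s u γ_k)`.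
(iv) `up`: `‖1 - conj(w_k) z‖ = ‖a - w_k‖ ‖1 - conj(w_k) z‖ ‖γ_k‖`, S_amgm for the numbers
`b_k = (1 - conj(w_k) z) γ_k`, `‖1 - conj(w) z‖^2 = ‖z - w‖^2 + (1 - ‖z‖^2) (1 - ‖w‖^2)`, so
`‖b_k‖^2 = ‖1 - (a - z) γ_k‖^2 + (1 - ‖z‖^2) ((1 - a^2) ‖γ_k‖^2 + 2 a Re γ_k - 1)`, the mean value of which is
`1 - 2 Re ((a - z) g) + ‖a - z‖^2 msq γ + (1 - ‖z‖^2) ((1 - a^2) msq γ + 2 a Re g - 1) ≤ Eb a g z` (`msq γ ≤ 1`, the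
coefficient of `msq γ` is not negative).
(v) `γ_k⁻¹ = a - w_k`, `‖a - w_k‖ ≤ 2`, `a - γ_k⁻¹ = w_k`. -/
def S_red : Prop := ∀ (N : ℕ) (a : ℝ) (w : Fin N → ℂ) (p : ℂ → ℂ), Setup N a w p →
  ∑ k, (‖w k - (a : ℂ)‖ ^ 2)⁻¹ < (N : ℝ) →
  Red N a (fun k => ((a : ℂ) - w k)⁻¹) (∏ k, ‖(a : ℂ) - w k‖) p

/-! ## Laplace's method -/

/-- JOB SEN-VAR. Proof (uses S_amgm). `F(x) = ∏ (c₀ - x d_k)`, `F(0) = c₀^N`, `F'(0) = 0`. For `‖x‖ = r`, by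
S_amgm `‖F(x)‖ ≤ sqrt((1/N) ∑ ‖c₀ - x d_k‖^2)^N = sqrt(‖c₀‖^2 + r^2 v)^N = B` (the mixed terms cancel), and
`‖F(0)‖ ≤ B`. `G = F - F(0)` has a zero of order at least two at `0` and `‖G‖ ≤ 2 B` on the circle `‖x‖ = r`, so `G(x) = x^2 h(x)`
with `h` entire (`dslope` twice), `‖h‖ ≤ 2 B / r^2` for `‖x‖ ≤ r` by the maximum principle, and `‖G(1)‖ = ‖h(1)‖ ≤ 2 B / r^2`. -/
def S_var : Prop := ∀ (N : ℕ) (c₀ : ℂ) (d : Fin N → ℂ) (r v : ℝ), 1 ≤ N → ∑ k, d k = 0 → 1 ≤ r →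
  v = (∑ k, ‖d k‖ ^ 2) / N →
  ‖∏ k, (c₀ - d k) - c₀ ^ N‖ ≤ 2 / r ^ 2 * Real.sqrt (‖c₀‖ ^ 2 + r ^ 2 * v) ^ N

/-- JOB SEN-LAP. Proof (uses S_var). `g = mean γ`, `V = vr γ ≥ 0`, `T = ‖u‖`, `q = 2 Re (u g) - T^2 > 0`. We have
`(N + 1) g u ∫_0^1 (1 - s u g)^N ds = 1 - (1 - u g)^(N+1)`, so we have to estimate
`∫_0^1 (∏ (1 - s u γ_k) - (1 - s u g)^N) ds`. For `0 < s ≤ 1` use S_var for `c₀ = 1 - s u g`,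
`d_k = s u (γ_k - g)`, `v = s^2 T^2 V` (`(1/N) ∑ ‖γ_k - g‖^2 = V`). As `‖g‖^2 + V = msq γ ≤ 1`,
`‖c₀‖^2 + r^2 v = 1 - 2 s Re (u g) + s^2 T^2 (‖g‖^2 + V) + (r^2 - 1) s^2 T^2 V ≤ 1 - s q + (r^2 - 1) s^2 T^2 V`
(`s^2 T^2 ≤ s T^2`). If `V = 0` the difference of the products is zero. If `V > 0` choose `r^2 = 1 + q / (2 s T^2 V)`: then
the right hand side is `1 - s q / 2 ≤ exp(- s q / 2)`, and `2 / r^2 ≤ 4 s T^2 V / q`. So the difference is at most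
`(4 s T^2 V / q) exp(- s q N / 4)`. Finally `∫_0^1 s exp(- s q N / 4) ds ≤ min(1/2, 16 / (q N)^2)`, and multiply by
`(N + 1) ‖g‖ T`. -/
def S_lap : Prop := ∀ (N : ℕ) (γ : Fin N → ℂ) (u : ℂ), 1 ≤ N → msq γ ≤ 1 →
  0 < 2 * (u * mean γ).re - ‖u‖ ^ 2 →
  ‖((N : ℂ) + 1) * mean γ * Itg γ u - (1 - (1 - u * mean γ) ^ (N + 1))‖ ≤
    ((N : ℝ) + 1) * ‖mean γ‖ * vr γ * (2 * ‖u‖ ^ 3 / (2 * (u * mean γ).re - ‖u‖ ^ 2)) ∧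
  ‖((N : ℂ) + 1) * mean γ * Itg γ u - (1 - (1 - u * mean γ) ^ (N + 1))‖ ≤
    ((N : ℝ) + 1) * ‖mean γ‖ * vr γ *
      (64 * ‖u‖ ^ 3 / ((N : ℝ) ^ 2 * (2 * (u * mean γ).re - ‖u‖ ^ 2) ^ 3))

/-- JOB SEN-POW. Proof. `‖1 - u g‖^2 = 1 - 2 Re (u g) + ‖u‖^2 ‖g‖^2 ≤ 1 - q`, `q = 2 Re (u g) - ‖u‖^2` (so `q ≤ 1`), and
`(1 - q)^(n/2) ≤ exp(- n q / 2)`. Also `0 ≤ vr γ` (Cauchy-Schwarz) and `vr γ ≤ 1 - ‖g‖^2 ≤ 1`,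
`‖g‖ ≤ 1 - vr γ / 2`. -/
def S_pow : Prop := ∀ (N : ℕ) (γ : Fin N → ℂ) (u : ℂ), 1 ≤ N → msq γ ≤ 1 →
  ‖1 - u * mean γ‖ ^ 2 ≤ 1 - (2 * (u * mean γ).re - ‖u‖ ^ 2) ∧
  ‖(1 - u * mean γ) ^ (N + 1)‖ ≤
    Real.exp (-(((N : ℝ) + 1) * (2 * (u * mean γ).re - ‖u‖ ^ 2) / 2)) ∧
  0 ≤ vr γ ∧ vr γ ≤ 1 ∧ ‖mean γ‖ ≤ 1 - vr γ / 2

/-! ## The cases -/

/-- JOB SEN-A. Proof (uses S_lap, S_pow). `g = mean γ`, `β = Re g - a / 2 ≥ 0`, `ω = Im g`. Take `u = a - i ω`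
(`z = a - u = i ω`). `‖u‖^2 = a^2 + ω^2 ≤ 2 ω^2`, `Re (u g) = a Re g + ω^2`, `q = 2 a β + ω^2 ≥ ω^2`, `‖g‖ ≤ a / 2 + β + |ω| ≤
2.5 |ω|`, `vr γ ≤ 1`, `‖g‖ ≤ 1`. The second bound of S_lap is at most
`(N + 1) 2.5 |ω| 64 (2 ω^2)^(3/2) / (N^2 ω^6) ≤ 906 / (N ω^2) ≤ 0.001`, and the power is at most
`exp(- N ω^2 / 2) ≤ 0.001`. So `(N + 1) ‖g‖ ‖Itg γ u‖ ≥ 0.9` and `‖p (iω)‖ ≥ 0.9 A / ‖g‖ ≥ 0.9 A` by `val`. On the other hand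
`Eb a g (i ω) = 1 - ω^2 - 2 a β ω^2 ≤ 1 - ω^2 ≤ exp(- ω^2)` and `|ω| ≤ ‖g‖ ≤ 1`, so `up` gives
`‖p (iω)‖ ≤ 2 A exp(- N ω^2 / 2) ≤ 0.01 A`. (Use only `exp(-x) ≤ 1 / (1 + x)` or `exp(-x) ≤ 1/x`.) -/
def S_A : Prop := ∀ (N : ℕ) (a : ℝ) (γ : Fin N → ℂ) (A : ℝ) (p : ℂ → ℂ), Red N a γ A p →
  a ≤ |(mean γ).im| → (mean γ).re - a / 2 ≤ |(mean γ).im| → 10 ^ 6 ≤ (N : ℝ) * (mean γ).im ^ 2 →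
  False

/-- JOB SEN-B. Proof (uses S_lap, S_pow). Take `u = a / 2` (`z = a / 2`). `q = a Re g - a^2 / 4 = a^2 / 4 + a β ≥ a^2 / 4`,
`‖g‖ ≤ a / 2 + a / 8 + a ≤ 2 a`. The second bound of S_lap is at most
`(N + 1) 2 a 64 (a^3 / 8) / (N^2 a^6 / 64) ≤ 2048 / (N a^2) ≤ 0.01`, the power is at most `exp(- N a^2 / 8) ≤ 0.001`. So
`‖p (a/2)‖ ≥ 0.9 A / ‖g‖ ≥ 0.9 A`. `Eb a g (a/2) = 1 - a^2/4 - a β + (1 - a^2/4) 2 a β ≤ 1 - a^2 / 4 + a β ≤ 1 - a^2 / 8`, so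
`‖p (a/2)‖ ≤ 2 A exp(- N a^2 / 16) ≤ 0.01 A`. -/
def S_B : Prop := ∀ (N : ℕ) (a : ℝ) (γ : Fin N → ℂ) (A : ℝ) (p : ℂ → ℂ), Red N a γ A p →
  8 * ((mean γ).re - a / 2) ≤ a → |(mean γ).im| ≤ a → 10 ^ 6 ≤ (N : ℝ) * a ^ 2 → False

/-- JOB SEN-C1. Proof (uses S_lap, S_pow). `β = Re g - a / 2`, so `a ≤ 8 β`, `|ω| ≤ max(a, β) ≤ 8 β`,
`N β^2 ≥ 10^6 / 64`, `‖g‖ ≤ a / 2 + β + |ω| ≤ 13 β`. Take `u = a` (`z = 0`), `q = 2 a β`. The first bound of S_lap is at most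
`(N + 1) 13 β (2 a^3 / (2 a β)) = 13 (N + 1) a^2`, the power is at most `exp(- x)`, `x = (N + 1) a β ≤ 2`, and
`1 - exp(- x) ≥ 0.4 x` for `0 ≤ x ≤ 2` (concavity). `a / β = x / ((N + 1) β^2) ≤ 2 / 15625`, so
`13 (N + 1) a^2 ≤ 0.01 x`. Hence `(N + 1) ‖g‖ ‖Itg γ a‖ ≥ 0.39 x`,
`‖p 0‖ ≥ 0.39 x / (13 β) = 0.03 (N + 1) a > a` as `N ≥ 100` (`β ≤ 1`, so `N ≥ 15625`). Contradiction to `‖p 0‖ ≤ a`. -/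
def S_C1 : Prop := ∀ (N : ℕ) (a : ℝ) (γ : Fin N → ℂ) (A : ℝ) (p : ℂ → ℂ), Red N a γ A p →
  a ≤ 8 * ((mean γ).re - a / 2) → |(mean γ).im| ≤ max a ((mean γ).re - a / 2) →
  10 ^ 6 ≤ (N : ℝ) * max a ((mean γ).re - a / 2) ^ 2 →
  ((N : ℝ) + 1) * a * ((mean γ).re - a / 2) ≤ 2 → False

/-- JOB SEN-C2. Proof (uses S_lap, S_pow). As S_C1, but `x = (N + 1) a β ≥ 2`: the second bound of S_lap is at most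
`(N + 1) 13 β 64 a^3 / (N^2 8 a^3 β^3) ≤ 208 / (N β^2) ≤ 0.014`, the power at most `exp(-2) ≤ 0.14`. So
`‖p 0‖ ≥ 0.8 A / ‖g‖ ≥ 0.8 > a`. -/
def S_C2 : Prop := ∀ (N : ℕ) (a : ℝ) (γ : Fin N → ℂ) (A : ℝ) (p : ℂ → ℂ), Red N a γ A p →
  a ≤ 8 * ((mean γ).re - a / 2) → |(mean γ).im| ≤ max a ((mean γ).re - a / 2) →
  10 ^ 6 ≤ (N : ℝ) * max a ((mean γ).re - a / 2) ^ 2 →
  2 ≤ ((N : ℝ) + 1) * a * ((mean γ).re - a / 2) → a ≤ 1 / 2 → False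

/-- JOB SEN-N (`a` near `1`). Proof (uses S_lap, S_pow). `β ≥ a / 8 ≥ 1 / 16`, `g = mean γ`, `V = vr γ`, `n = N + 1`.
(1) `u = a`, `q = 2 a β ≥ 1/16`: `ρ = ‖1 - a g‖`, `ρ^2 ≤ 1 - 1/16`. As `‖g‖ ≤ 1`, the second bound of S_lap is at most
`(N + 1) V 64 a^3 / (N^2 (2 a β)^3) ≤ (2 / N) V 8 / β^3 ≤ (65536 / N) V ≤ V / 4`. So `n ‖g‖ ‖Itg γ a‖ ≥ 1 - ρ^n - V / 4`, and
`1 ≥ a ≥ ‖p 0‖ ≥ (1 - ρ^n - V / 4) / ‖g‖ ≥ (1 + V / 2) (1 - ρ^n - V / 4)` (`‖g‖ ≤ 1 - V / 2`, `A ≥ 1`). Hence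
`V ≤ 12 ρ^n`, `1 - a ≤ 2 ρ^n`, and `‖g‖ ≥ 1 - ρ^n - V / 4 ≥ 0.99`.
(2) `v = a - 1 / g`, `ρ = ‖g‖ ‖v‖`. Take `u = a - v = 1 / g`: `u g = 1`, `q = 2 - ‖u‖^2 ≥ 0.9`; the second bound of S_lap
gives `‖n g Itg γ u - 1‖ ≤ V / 4`. So `‖p v‖ ≥ (1 - V / 4) / ‖g‖ ≥ (1 + V / 2) (1 - V / 4) ≥ 1`. By `mn`,
`1 ≤ (1 + ‖v‖^2 - 2 Re (conj v μ))^n`, `μ = mean (a - 1/γ_k)`, `‖μ‖ ≤ 1` (`w1`), so `1 + ‖v‖^2 - 2 Re (conj v μ) ≥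
‖v - μ‖^2 ≥ 0`; hence `2 Re (conj v μ) ≤ ‖v‖^2`, and `‖v‖^2 ≤ 2 ‖v‖ ‖μ - v‖`.
(3) `μ - v = (1/N) ∑ (1/g - 1/γ_k) = (1/N) ∑ (γ_k - g) / (g γ_k) = - (1/N) ∑ (γ_k - g)^2 / (g^2 γ_k)` (as `∑ (γ_k - g) = 0`),
`‖μ - v‖ ≤ 2 V / ‖g‖^2 ≤ 2.1 V` (`g2`). So, if `v ≠ 0`, `‖v‖ ≤ 4.2 V ≤ 51 ρ^n ≤ 51 ‖v‖ ρ^(n-1)`, a contradiction, as
`51 ρ^(n-1) ≤ 51 (15/16)^((n-1)/2) < 1`. If `v = 0` then `ρ = 0`, `V = 0` and `a = 1`, `g = 1`, `msq γ = V + ‖g‖^2 = 1`, a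
contradiction. -/
def S_N : Prop := ∀ (N : ℕ) (a : ℝ) (γ : Fin N → ℂ) (A : ℝ) (p : ℂ → ℂ), Red N a γ A p →
  a ≤ 8 * ((mean γ).re - a / 2) → 1 / 2 ≤ a → 10 ^ 6 ≤ N → False

/-- JOB SEN-D (everything of size `N^(-1/2)`). Proof (uses S_var). `K = 10^6`, `‖g‖ ≤ a / 2 + β + |ω| ≤ 2500 / sqrt N`. Take
`u = T = 10^(-4) / sqrt N` (real, `z = a - T`). For `0 ≤ s ≤ 1`, `t = s T`: S_var for `c₀ = 1 - t g`,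
`d_k = t (γ_k - g)`, `r^2 = 1 / (t^2 N) ≥ 1` (for `t > 0`): as `‖c₀‖ ≤ 1 + t ‖g‖` and `r^2 v ≤ 1 / N`,
`sqrt(‖c₀‖^2 + r^2 v)^N ≤ exp(N t ‖g‖ + 1/2) ≤ exp(0.75)` and the difference of `∏ (1 - t γ_k)` and
`(1 - t g)^N` is at most `2 t^2 N exp(0.75) ≤ 0.001`; `‖(1 - t g)^N - 1‖ ≤ exp(N t ‖g‖) - 1 ≤ exp(0.25) - 1 ≤ 0.29`. So
`‖Itg γ T‖ ≥ 0.7 T`, and `‖p (a - T)‖ ≥ 0.7 (N + 1) A T ≥ 0.7 10^(-4) sqrt N A`. On the other hand `‖a - T‖ ≤ 1`,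
`Eb a g (a - T) = 1 - (2 T Re g - T^2) + (1 - ‖a - T‖^2) 2 a β ≤ 1 + T^2 + 2 a β ≤ 1 + 3 K / N`, so
`‖p (a - T)‖ ≤ 2 A exp(1.5 K)`. Contradiction for `N ≥ exp(4 K)`. -/
def S_D : Prop := ∀ (N : ℕ) (a : ℝ) (γ : Fin N → ℂ) (A : ℝ) (p : ℂ → ℂ), Red N a γ A p →
  (N : ℝ) * max a ((mean γ).re - a / 2) ^ 2 ≤ 10 ^ 6 → (N : ℝ) * (mean γ).im ^ 2 ≤ 10 ^ 6 →
  Real.exp (4 * 10 ^ 6) ≤ N → False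

end Pool.Agent.Q72.SEN
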